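import Mathlib

set_option autoImplicit false

namespace Pool.Agent.Results.MP_a804c6_nt.Square

open Finset

/-- The set `S(f; g_1, ..., g_s; p)` of the problem. -/
def S (p : ℕ) (f : Polynomial (AlgebraicClosure ℚ)) (s : ℕ) (g : Fin s → AlgebraicClosure ℚ) :
    Set ℕ :=
  {n | ∃ k : Fin s → ℕ,
    f.eval (n : AlgebraicClosure ℚ) = ∑ j, g j * (p : AlgebraicClosure ℚ) ^ k j}

/-- Arithmetic progressions `{a + b n : n ≥ 0}` (with `b = 0` allowed). -/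
def IsAP (A : Set ℕ) : Prop := ∃ a b : ℕ, A = {x | ∃ n : ℕ, x = a + b * n}

/-- `A` is the set of natural numbers lying in some `p`-sum set. -/
def IsPSumTrace (p : ℕ) (A : Set ℕ) : Prop :=
  ∃ (m : ℕ) (c : Fin m → ℚ) (k : Fin m → ℕ),
    A = {x : ℕ | ∃ n : Fin m → ℕ, (x : ℚ) = ∑ j, c j * (p : ℚ) ^ (k j * n j)}

lemma low_bound {ι : Type} (T : Finset ι) (p : ℕ) (hp : 1 ≤ p) (c : ι → ℤ) (e : ι → ℕ) (u : ℕ)
    (h : ∀ i ∈ T, e i ≤ u) :
    |∑ i ∈ T, c i * (p : ℤ) ^ e i| ≤ (∑ i ∈ T, |c i|) * (p : ℤ) ^ u := by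
  refine (Finset.abs_sum_le_sum_abs _ _).trans ?_
  rw [Finset.sum_mul]
  refine Finset.sum_le_sum fun i hi => ?_
  rw [abs_mul, abs_pow, Nat.abs_cast]
  refine mul_le_mul_of_nonneg_left ?_ (abs_nonneg _)
  exact pow_le_pow_right₀ (by exact_mod_cast hp) (h i hi)

lemma high_dvd {ι : Type} (T : Finset ι) (p : ℕ) (c : ι → ℤ) (e : ι → ℕ) (u : ℕ)
    (h : ∀ i ∈ T, u ≤ e i) :
    (p : ℤ) ^ u ∣ ∑ i ∈ T, c i * (p : ℤ) ^ e i :=
  Finset.dvd_sum fun i hi => Dvd.dvd.mul_left (pow_dvd_pow _ (h i hi)) _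

lemma isolated (p : ℕ) (hp : 2 ≤ p) (c : Fin 8 → ℤ) (e : Fin 8 → ℕ) (i0 : Fin 8)
    (hc : c i0 ≠ 0) (hs : ∑ i, |c i| < 16) (hE : 4 ≤ e i0)
    (hsep : ∀ i, i ≠ i0 → e i + 4 ≤ e i0 ∨ e i0 + 4 ≤ e i)
    (h : ∑ i, c i * (p : ℤ) ^ e i = 0) : False := by
  classical
  obtain ⟨u, hu⟩ : ∃ u, e i0 = u + 4 := ⟨e i0 - 4, by omega⟩
  have hp1 : (1 : ℤ) ≤ p := by exact_mod_cast (by omega : 1 ≤ p)
  have hp16 : (16 : ℤ) ≤ (p : ℤ) ^ 4 := by
    have : (2 : ℤ) ^ 4 ≤ (p : ℤ) ^ 4 := pow_le_pow_left₀ (by norm_num) (by exact_mod_cast hp) 4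
    linarith
  have hpu : (0 : ℤ) < (p : ℤ) ^ u := by positivity
  -- split at the top
  rw [← Finset.sum_filter_add_sum_filter_not univ (fun i => e i ≤ e i0)] at h
  have h1 := low_bound (univ.filter fun i => e i ≤ e i0) p (by omega) c e (e i0)
    (fun i hi => (mem_filter.1 hi).2)
  have h2 := high_dvd (univ.filter fun i => ¬ e i ≤ e i0) p c e (e i0 + 4)
    (fun i hi => by
      have h3 := (mem_filter.1 hi).2
      have h4 : i ≠ i0 := by rintro rfl; exact h3 le_rfl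
      have := hsep i h4
      omega)
  have h5 : ∑ i ∈ univ.filter (fun i => e i ≤ e i0), |c i| ≤ ∑ i, |c i| :=
    Finset.sum_le_sum_of_subset_of_nonneg (filter_subset _ _) (fun i _ _ => abs_nonneg _)
  have hpe : (0 : ℤ) < (p : ℤ) ^ e i0 := by positivity
  have h6 : ∑ i ∈ univ.filter (fun i => e i ≤ e i0), c i * (p : ℤ) ^ e i = 0 := by
    refine Int.eq_zero_of_abs_lt_dvd (m := (p : ℤ) ^ (e i0 + 4)) ?_ ?_
    · have : ∑ i ∈ univ.filter (fun i => e i ≤ e i0), c i * (p : ℤ) ^ e i =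
          - ∑ i ∈ univ.filter (fun i => ¬ e i ≤ e i0), c i * (p : ℤ) ^ e i := by linarith
      rw [this]; exact (dvd_neg).2 h2
    · rw [pow_add]
      nlinarith
  have hmem : i0 ∈ univ.filter (fun i => e i ≤ e i0) := by simp
  rw [← Finset.add_sum_erase _ _ hmem] at h6
  have h7 := low_bound ((univ.filter fun i => e i ≤ e i0).erase i0) p (by omega) c e u
    (fun i hi => by
      have h3 := (mem_filter.1 (mem_of_mem_erase hi)).2
      have h4 : i ≠ i0 := ne_of_mem_erase hi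
      have := hsep i h4
      omega)
  have h8 : ∑ i ∈ (univ.filter (fun i => e i ≤ e i0)).erase i0, |c i| ≤ ∑ i, |c i| :=
    Finset.sum_le_sum_of_subset_of_nonneg (subset_univ _) (fun i _ _ => abs_nonneg _)
  have h9 : ∑ i ∈ (univ.filter (fun i => e i ≤ e i0)).erase i0, c i * (p : ℤ) ^ e i =
      - (c i0 * (p : ℤ) ^ e i0) := by linarith
  have hpw : (p : ℤ) ^ e i0 = (p : ℤ) ^ u * (p : ℤ) ^ 4 := by rw [hu, pow_add]
  rw [h9, abs_neg, abs_mul, abs_of_pos hpe, hpw] at h7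
  have h10 : 1 ≤ |c i0| := Int.one_le_abs hc
  have h11 : (p : ℤ) ^ u * (p : ℤ) ^ 4 ≤ |c i0| * ((p : ℤ) ^ u * (p : ℤ) ^ 4) :=
    le_mul_of_one_le_left (by positivity) h10
  nlinarith

lemma not_rep (p : ℕ) (hp : 2 ≤ p) (a K : ℕ) (ha : 8 ≤ a) (hK : 8 ≤ K) (k1 k2 k3 : ℕ)
    (h : ((p : ℤ) ^ a + (p : ℤ) ^ (2 * a + K)) ^ 2 - ((p : ℤ) ^ a + (p : ℤ) ^ (2 * a + K)) =
      (p : ℤ) ^ k1 + 2 * (p : ℤ) ^ k2 - (p : ℤ) ^ k3) : False := by
  have key : ∑ i : Fin 8, (![-1, 1, -1, 2, 1, -1, -2, 1] : Fin 8 → ℤ) i *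
      (p : ℤ) ^ ((![a, 2 * a, 2 * a + K, 3 * a + K, 4 * a + 2 * K, k1, k2, k3] : Fin 8 → ℕ) i)
      = 0 := by
    simp only [Fin.sum_univ_eight, Matrix.cons_val]
    have e1 : (p : ℤ) ^ (2 * a) = (p : ℤ) ^ a * (p : ℤ) ^ a := by ring
    have e2 : (p : ℤ) ^ (3 * a + K) = (p : ℤ) ^ a * (p : ℤ) ^ (2 * a + K) := by ring
    have e3 : (p : ℤ) ^ (4 * a + 2 * K) = (p : ℤ) ^ (2 * a + K) * (p : ℤ) ^ (2 * a + K) := by ring
    rw [e1, e2, e3]
    linear_combination h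
  have hs : ∑ i : Fin 8, |(![-1, 1, -1, 2, 1, -1, -2, 1] : Fin 8 → ℤ) i| < 16 := by
    simp [Fin.sum_univ_eight]
  have far : ∀ E : ℕ, ((k1 + 4 ≤ E ∨ E + 4 ≤ k1) ∧ (k2 + 4 ≤ E ∨ E + 4 ≤ k2) ∧
      (k3 + 4 ≤ E ∨ E + 4 ≤ k3)) ∨ ((E < k1 + 4 ∧ k1 < E + 4) ∨ (E < k2 + 4 ∧ k2 < E + 4) ∨
      (E < k3 + 4 ∧ k3 < E + 4)) := by
    intro E; omega
  rcases far a with h0 | h0
  · refine isolated p hp _ _ 0 (by simp) hs (by simp; omega) ?_ key
    intro i hi; fin_cases i <;> simp at hi ⊢ <;> omega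
  rcases far (2 * a) with h1 | h1
  · refine isolated p hp _ _ 1 (by simp) hs (by simp; omega) ?_ key
    intro i hi; fin_cases i <;> simp at hi ⊢ <;> omega
  rcases far (2 * a + K) with h2 | h2
  · refine isolated p hp _ _ 2 (by simp) hs (by simp; omega) ?_ key
    intro i hi; fin_cases i <;> simp at hi ⊢ <;> omega
  rcases far (3 * a + K) with h3 | h3
  · refine isolated p hp _ _ 3 (by simp) hs (by simp; omega) ?_ key
    intro i hi; fin_cases i <;> simp at hi ⊢ <;> omega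
  rcases far (4 * a + 2 * K) with h4 | h4
  · refine isolated p hp _ _ 4 (by simp) hs (by simp; omega) ?_ key
    intro i hi; fin_cases i <;> simp at hi ⊢ <;> omega
  omega

lemma shift_ap (p : ℕ) (hp : 2 ≤ p) (A : Set ℕ) (hA : IsAP A) :
    ∃ a0 : ℕ, ∀ a, a0 ≤ a → p ^ a + p ^ (2 * a) ∈ A →
      ∃ K, 8 ≤ K ∧ p ^ a + p ^ (2 * a + K) ∈ A := by
  obtain ⟨x, b, rfl⟩ := hA
  rcases Nat.eq_zero_or_pos b with rfl | hb
  · refine ⟨x, fun a ha h => ?_⟩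
    obtain ⟨n, hn⟩ := h
    have h1 : a < p ^ a := Nat.lt_pow_self (by omega)
    have h2 : 0 ≤ p ^ (2 * a) := Nat.zero_le _
    omega
  · have : NeZero b := ⟨by omega⟩
    obtain ⟨i, j, hij, h⟩ : ∃ i j : ℕ, i < j ∧ (p : ZMod b) ^ i = (p : ZMod b) ^ j := by
      obtain ⟨i, j, hne, h⟩ := Finite.exists_ne_map_eq_of_infinite (fun i : ℕ => (p : ZMod b) ^ i)
      rcases lt_or_gt_of_ne hne with h1 | h1
      · exact ⟨i, j, h1, h⟩
      · exact ⟨j, i, h1, h.symm⟩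
    obtain ⟨d, rfl⟩ : ∃ d, j = i + (d + 1) := ⟨j - i - 1, by omega⟩
    have hper : ∀ t : ℕ, (p : ZMod b) ^ (i + (d + 1) * t) = (p : ZMod b) ^ i := by
      intro t
      induction t with
      | zero => simp
      | succ t ih =>
        have : i + (d + 1) * (t + 1) = (i + (d + 1)) + (d + 1) * t := by ring
        rw [this, pow_add, ← h, ← pow_add, ih]
    refine ⟨i, fun a ha hmem => ⟨(d + 1) * 8, by nlinarith, ?_⟩⟩
    obtain ⟨n, hn⟩ := hmem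
    have h1 : (p : ZMod b) ^ (2 * a + (d + 1) * 8) = (p : ZMod b) ^ (2 * a) := by
      obtain ⟨w, hw⟩ : ∃ w, 2 * a = i + w := ⟨2 * a - i, by omega⟩
      have : 2 * a + (d + 1) * 8 = (i + (d + 1) * 8) + w := by omega
      rw [this, pow_add, hper, hw, pow_add]
    have h2 : p ^ (2 * a) ≤ p ^ (2 * a + (d + 1) * 8) :=
      Nat.pow_le_pow_right (by omega) (by omega)
    have h3 : b ∣ p ^ (2 * a + (d + 1) * 8) - p ^ (2 * a) := by
      refine (Nat.modEq_iff_dvd' h2).1 ?_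
      rw [← ZMod.natCast_eq_natCast_iff]
      push_cast
      exact h1.symm
    obtain ⟨r, hr⟩ := h3
    refine ⟨n + r, ?_⟩
    rw [mul_add]
    omega

lemma shift_psum (p : ℕ) (hp : 2 ≤ p) (A : Set ℕ) (hA : IsPSumTrace p A) :
    ∃ a0 : ℕ, ∀ a, a0 ≤ a → p ^ a + p ^ (2 * a) ∈ A →
      ∃ K, 8 ≤ K ∧ p ^ a + p ^ (2 * a + K) ∈ A := by
  classical
  obtain ⟨m, c, k, rfl⟩ := hA
  obtain ⟨D, hD, z, hz⟩ : ∃ D : ℕ, 0 < D ∧ ∃ z : Fin m → ℤ, ∀ j, (z j : ℚ) = D * c j := by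
    refine ⟨∏ j, (c j).den, Finset.prod_pos fun j _ => (c j).den_pos, ?_⟩
    have : ∀ j, ∃ w : ℤ, (w : ℚ) = ((∏ j, (c j).den : ℕ) : ℚ) * c j := by
      intro j
      obtain ⟨r, hr⟩ : (c j).den ∣ ∏ j, (c j).den := Finset.dvd_prod_of_mem _ (mem_univ j)
      refine ⟨r * (c j).num, ?_⟩
      rw [hr]; push_cast
      have := Rat.den_mul_eq_num (c j)
      rw [← this]; ring
    choose z hz using this
    exact ⟨z, hz⟩
  obtain ⟨L, hL1, hL⟩ : ∃ L : ℕ, 1 ≤ L ∧ (D : ℤ) + ∑ j, |z j| < (p : ℤ) ^ L := by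
    have h0 : 0 ≤ (D : ℤ) + ∑ j, |z j| := by positivity
    obtain ⟨N, hN⟩ := Int.eq_ofNat_of_zero_le h0
    refine ⟨N + 1, by omega, ?_⟩
    rw [hN]
    have : N + 1 < p ^ (N + 1) := Nat.lt_pow_self (by omega)
    have h2 : N < p ^ (N + 1) := by omega
    exact_mod_cast h2
  refine ⟨(m + 1) * L, fun a ha hmem => ?_⟩
  obtain ⟨n, hn⟩ := hmem
  -- an empty window
  obtain ⟨i, hi, hfree⟩ : ∃ i, i < m + 1 ∧ ∀ j, k j * n j ≤ a + i * L ∨
      a + i * L + L ≤ k j * n j := by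
    by_contra hcon
    push Not at hcon
    have hcon' : ∀ i : Fin (m + 1), ∃ j, a + i.1 * L < k j * n j ∧
        k j * n j < a + i.1 * L + L := fun i => hcon i.1 i.2
    choose w hw using hcon'
    have hinj : Function.Injective w := by
      intro i1 i2 h12
      have a1 := hw i1
      have a2 := hw i2
      rw [h12] at a1
      apply Fin.ext
      rcases lt_trichotomy i1.1 i2.1 with h | h | h
      · have : (i1.1 + 1) * L ≤ i2.1 * L := Nat.mul_le_mul_right _ h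
        rw [add_mul] at this; omega
      · exact h
      · have : (i2.1 + 1) * L ≤ i1.1 * L := Nat.mul_le_mul_right _ h
        rw [add_mul] at this; omega
    have := Fintype.card_le_of_injective w hinj
    simp at this
  have hiL : (i + 1) * L ≤ (m + 1) * L := Nat.mul_le_mul_right _ hi
  rw [add_mul, one_mul] at hiL
  obtain ⟨u, hu⟩ : ∃ u, u = a + i * L := ⟨_, rfl⟩
  rw [← hu] at hfree
  have hua : a ≤ u := by omega
  have hu2 : u + L ≤ 2 * a := by omega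
  have hint : (D : ℤ) * ((p : ℤ) ^ a + (p : ℤ) ^ (2 * a)) = ∑ j, z j * (p : ℤ) ^ (k j * n j) := by
    have : ((D : ℤ) * ((p : ℤ) ^ a + (p : ℤ) ^ (2 * a)) : ℚ) =
        ((∑ j, z j * (p : ℤ) ^ (k j * n j) : ℤ) : ℚ) := by
      push_cast at hn ⊢
      rw [hn, Finset.mul_sum]
      refine Finset.sum_congr rfl fun j _ => ?_
      rw [hz]; ring
    exact_mod_cast this
  rw [← Finset.sum_filter_add_sum_filter_not univ (fun j => k j * n j ≤ u)] at hint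
  have h1 := low_bound (univ.filter fun j => k j * n j ≤ u) p (by omega) z (fun j => k j * n j) u
    (fun i hi => (mem_filter.1 hi).2)
  have h2 := high_dvd (univ.filter fun j => ¬ k j * n j ≤ u) p z (fun j => k j * n j) (u + L)
    (fun j hj => by
      have h3 := (mem_filter.1 hj).2
      have := hfree j
      omega)
  have h5 : ∑ j ∈ univ.filter (fun j => k j * n j ≤ u), |z j| ≤ ∑ j, |z j| :=
    Finset.sum_le_sum_of_subset_of_nonneg (filter_subset _ _) (fun i _ _ => abs_nonneg _)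
  obtain ⟨lo, hlo⟩ : ∃ lo, lo = ∑ j ∈ univ.filter (fun j => k j * n j ≤ u),
      z j * (p : ℤ) ^ (k j * n j) := ⟨_, rfl⟩
  obtain ⟨hi', hhi⟩ : ∃ hi', hi' = ∑ j ∈ univ.filter (fun j => ¬ k j * n j ≤ u),
      z j * (p : ℤ) ^ (k j * n j) := ⟨_, rfl⟩
  simp only [← hlo, ← hhi] at hint h1 h2
  have hpu : (0 : ℤ) < (p : ℤ) ^ u := by positivity
  have hpa : (p : ℤ) ^ a ≤ (p : ℤ) ^ u :=
    pow_le_pow_right₀ (by exact_mod_cast (by omega : 1 ≤ p)) hua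
  have h6 : (D : ℤ) * (p : ℤ) ^ a - lo = 0 := by
    refine Int.eq_zero_of_abs_lt_dvd (m := (p : ℤ) ^ (u + L)) ?_ ?_
    · have : (D : ℤ) * (p : ℤ) ^ a - lo = hi' - D * (p : ℤ) ^ (2 * a) := by linarith
      rw [this]
      exact dvd_sub h2 (Dvd.dvd.mul_left (pow_dvd_pow _ hu2) _)
    · have e1 : |(D : ℤ) * (p : ℤ) ^ a - lo| ≤ |(D : ℤ) * (p : ℤ) ^ a| + |lo| := abs_sub _ _
      have e2 : |(D : ℤ) * (p : ℤ) ^ a| = (D : ℤ) * (p : ℤ) ^ a := abs_of_nonneg (by positivity)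
      have e3 : (D : ℤ) * (p : ℤ) ^ a ≤ (D : ℤ) * (p : ℤ) ^ u :=
        mul_le_mul_of_nonneg_left hpa (by positivity)
      rw [pow_add]
      nlinarith
  have h7 : hi' = (D : ℤ) * (p : ℤ) ^ (2 * a) := by linarith
  have h8 : lo = (D : ℤ) * (p : ℤ) ^ a := by linarith
  obtain ⟨P, hP, hPd⟩ : ∃ P : ℕ, 8 ≤ P ∧ ∀ j, 0 < k j → k j ∣ P := by
    refine ⟨8 * ∏ j, max (k j) 1, ?_, fun j hj => ?_⟩
    · have : 0 < ∏ j, max (k j) 1 := Finset.prod_pos fun j _ => by omega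
      omega
    · have h9 : max (k j) 1 ∣ ∏ j, max (k j) 1 :=
        Finset.dvd_prod_of_mem (fun j => max (k j) 1) (mem_univ j)
      rw [max_eq_left (by omega : 1 ≤ k j)] at h9
      exact Dvd.dvd.mul_left h9 _
  refine ⟨P, hP, fun j => if k j * n j ≤ u then n j else n j + P / k j, ?_⟩
  have hDq : (D : ℚ) ≠ 0 := by positivity
  apply mul_left_cancel₀ hDq
  rw [Finset.mul_sum, ← Finset.sum_filter_add_sum_filter_not univ (fun j => k j * n j ≤ u)]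
  have q1 : ∑ j ∈ univ.filter (fun j => k j * n j ≤ u), (D : ℚ) * (c j * (p : ℚ) ^
      (k j * (if k j * n j ≤ u then n j else n j + P / k j))) = (lo : ℚ) := by
    rw [hlo]; push_cast
    refine Finset.sum_congr rfl fun j hj => ?_
    rw [if_pos (mem_filter.1 hj).2, hz]; ring
  have q2 : ∑ j ∈ univ.filter (fun j => ¬ k j * n j ≤ u), (D : ℚ) * (c j * (p : ℚ) ^
      (k j * (if k j * n j ≤ u then n j else n j + P / k j))) = (hi' : ℚ) * (p : ℚ) ^ P := by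
    rw [hhi]; push_cast
    rw [Finset.sum_mul]
    refine Finset.sum_congr rfl fun j hj => ?_
    have h3 := (mem_filter.1 hj).2
    have hk : 0 < k j := by
      rcases Nat.eq_zero_or_pos (k j) with h0 | h0
      · rw [h0] at h3; simp at h3
      · exact h0
    rw [if_neg h3, hz, mul_add, Nat.mul_div_cancel' (hPd j hk), pow_add]; ring
  rw [q1, q2, h7, h8]
  push_cast
  ring

theorem result (p : ℕ) (hp : p.Prime) :
    ¬ ∃ F : Set (Set ℕ), F.Finite ∧ (∀ A ∈ F, IsAP A ∨ IsPSumTrace p A) ∧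
      S p (Polynomial.X ^ 2 - Polynomial.X) 3 ![1, 2, -1] = ⋃₀ F := by
  rintro ⟨F, hF, hA, hS⟩
  have hp2 := hp.two_le
  have h1 : ∀ A ∈ F, ∃ a0 : ℕ, ∀ a, a0 ≤ a → p ^ a + p ^ (2 * a) ∈ A →
      ∃ K, 8 ≤ K ∧ p ^ a + p ^ (2 * a + K) ∈ A := fun A hAF =>
    (hA A hAF).elim (shift_ap p hp2 A) (shift_psum p hp2 A)
  choose! a0 ha0 using h1
  obtain ⟨B, hB⟩ := (hF.image a0).bddAbove
  have hmem : p ^ (B + 8) + p ^ (2 * (B + 8)) ∈
      S p (Polynomial.X ^ 2 - Polynomial.X) 3 ![1, 2, -1] := by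
    refine ⟨![4 * (B + 8), 3 * (B + 8), B + 8], ?_⟩
    simp only [Fin.sum_univ_three, Polynomial.eval_sub, Polynomial.eval_pow, Polynomial.eval_X,
      Matrix.cons_val]
    push_cast
    ring
  rw [hS] at hmem
  obtain ⟨A, hAF, hmem⟩ := hmem
  obtain ⟨K, hK, hK2⟩ := ha0 A hAF (B + 8) ((hB ⟨A, hAF, rfl⟩).trans (by omega)) hmem
  have h2 : p ^ (B + 8) + p ^ (2 * (B + 8) + K) ∈
      S p (Polynomial.X ^ 2 - Polynomial.X) 3 ![1, 2, -1] := by
    rw [hS]; exact ⟨A, hAF, hK2⟩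
  obtain ⟨k, hk⟩ := h2
  simp only [Fin.sum_univ_three, Polynomial.eval_sub, Polynomial.eval_pow, Polynomial.eval_X,
    Matrix.cons_val] at hk
  refine not_rep p hp2 (B + 8) K (by omega) hK (k 0) (k 1) (k 2) ?_
  have h3 : ((((p : ℤ) ^ (B + 8) + (p : ℤ) ^ (2 * (B + 8) + K)) ^ 2 -
      ((p : ℤ) ^ (B + 8) + (p : ℤ) ^ (2 * (B + 8) + K)) : ℤ) : AlgebraicClosure ℚ) =
      (((p : ℤ) ^ k 0 + 2 * (p : ℤ) ^ k 1 - (p : ℤ) ^ k 2 : ℤ) : AlgebraicClosure ℚ) := by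
    push_cast at hk ⊢
    linear_combination hk
  exact_mod_cast h3

end Pool.Agent.Results.MP_a804c6_nt.Square
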